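import Pool.Agent.Lib.MP_0370b2_nt.SA.Clo
import Pool.Agent.Lib.MP_0370b2_nt.SA.Fin

/-! Function-field model: the Schanuel property of the Carlitz exponential. -/

namespace Pool.Agent.Results.MP_0370b2_nt.CarlitzSchanuel

/-- The Carlitz factorial `D_i = ∏_{l < i} (T^(q^i) - T^(q^l))`. -/
noncomputable def D {Ω : Type} [NormedField Ω] (q : ℕ) (T : Ω) (i : ℕ) : Ω :=
  ∏ l ∈ Finset.range i, (T ^ q ^ i - T ^ q ^ l)

/-- The Carlitz exponential `e(z) = ∑ z^(q^i) / D_i`. -/
noncomputable def ex {Ω : Type} [NormedField Ω] (q : ℕ) (T z : Ω) : Ω :=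
  ∑' i : ℕ, z ^ q ^ i / D q T i

/-- The rational function field `K = F(T)`. -/
def K (F : Type) {Ω : Type} [Field F] [NormedField Ω] [Algebra F Ω] (T : Ω) : Subfield Ω :=
  (IntermediateField.adjoin F {T}).toSubfield

theorem result (F Ω : Type) [Field F] [Fintype F] [NormedField Ω] [IsUltrametricDist Ω]
    [CompleteSpace Ω] [Algebra F Ω] (T : Ω) (hT : 1 < ‖T‖) (n : ℕ) (u : Fin n → Ω)
    (hi : LinearIndependent (K F T) u) :
    (n : Cardinal) ≤ Algebra.trdeg (K F T) (IntermediateField.adjoin (K F T)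
      (Set.range u ∪ Set.range fun i => ex (Fintype.card F) T (u i))) := by
  obtain ⟨s, hs, h⟩ := Pool.Agent.CSU.SA.any Pool.Agent.CSU.SA.fullS F Ω n T u hT hi
  have h1 : AlgebraicIndependent (K F T) fun j => (⟨s j, IntermediateField.subset_adjoin _ _ (hs j)⟩ :
      IntermediateField.adjoin (K F T)
        (Set.range u ∪ Set.range fun i => ex (Fintype.card F) T (u i))) :=
    AlgebraicIndependent.of_comp (IntermediateField.val _) h
  simpa using h1.cardinalMk_le_trdeg

end Pool.Agent.Results.MP_0370b2_nt.CarlitzSchanuel
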