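import Pool.Agent.Lib.MP_0370b2_nt.CS.Iter
import Pool.Agent.Lib.MP_0370b2_nt.CS.Sieg
import Pool.Agent.Lib.MP_0370b2_nt.CS.PF
import Pool.Agent.Lib.MP_0370b2_nt.CS.Ore
import Pool.Agent.Lib.MP_0370b2_nt.CS.Liou

/-! Function-field model of the tower `exp (exp (exp a))`: every iterate of the Carlitz
exponential. -/

namespace Pool.Agent.Results.MP_0370b2_nt.CarlitzTower

/-- `θ = X⁻¹` in `F((X)) = F((1/θ))`. -/
noncomputable def theta (F : Type) [Field F] : LaurentSeries F := HahnSeries.single (-1) 1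

/-- The Carlitz factorial `D_i = ∏_{u < i} (θ^(q^i) - θ^(q^u))`, `q = |F|`. -/
noncomputable def carlitzD (F : Type) [Field F] [Fintype F] (i : ℕ) : LaurentSeries F :=
  ∏ u ∈ Finset.range i, (theta F ^ (Fintype.card F ^ i) - theta F ^ (Fintype.card F ^ u))

/-- The Carlitz exponential `e(z) = ∑_i z^(q^i) / D_i` on `F((1/θ))`. -/
noncomputable def carlitzExp (F : Type) [Field F] [Fintype F] (z : LaurentSeries F) :
    LaurentSeries F :=
  ∑' i : ℕ, z ^ (Fintype.card F ^ i) / carlitzD F i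

theorem result (F : Type) [Field F] [Fintype F] (hq : 3 ≤ Fintype.card F)
    (s : LaurentSeries F) (hs : s ≠ 0) (N : ℕ) (hN : 1 ≤ N) :
    Transcendental (IntermediateField.adjoin F ({theta F} : Set (LaurentSeries F)))
      ((carlitzExp F)^[N] s - s) :=
  Pool.Agent.CarlAn.iter
    (Pool.Agent.CarlAn.main Pool.Agent.Carl.sieg Pool.Agent.Carl.pf Pool.Agent.Carl.ore
      Pool.Agent.Carl.liou) hq hs hN

end Pool.Agent.Results.MP_0370b2_nt.CarlitzTower
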